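import Pool.Agent.Helper31.RG.Goals

/-!
# Range concatenation grammars: the tree evaluation (packet TREE)
-/

namespace Pool.Agent.Helper90.RG.PkTREE

open Pool.Agent.Helper31.RG
open Pool.Agent.Helper65.LinSpace Pool.Agent.Helper78 Pool.Agent.Helper78.Mpc
  Pool.Agent.Helper78.Xor Pool.Agent.Helper95.BG Finset

/-! ### Decoding of the nodes -/

theorem nd_dec {H MZ MC l Z C : ℕ} (φ : ℕ) (hl : l < H) (hZ : Z < MZ) (hC : C < MC) :
    nd H MZ MC φ l Z C / MC / MZ / H = φ ∧ nd H MZ MC φ l Z C / MC / MZ % H = l ∧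
      nd H MZ MC φ l Z C / MC % MZ = Z ∧ nd H MZ MC φ l Z C % MC = C := by
  have h1 : nd H MZ MC φ l Z C / MC = (φ * H + l) * MZ + Z := by
    unfold nd
    rw [mul_comm _ MC, Nat.mul_add_div (by omega), Nat.div_eq_of_lt hC, add_zero]
  have h2 : nd H MZ MC φ l Z C / MC / MZ = φ * H + l := by
    rw [h1, mul_comm _ MZ, Nat.mul_add_div (by omega), Nat.div_eq_of_lt hZ, add_zero]
  refine ⟨?_, ?_, ?_, ?_⟩
  · rw [h2, mul_comm _ H, Nat.mul_add_div (by omega), Nat.div_eq_of_lt hl, add_zero]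
  · rw [h2, mul_comm _ H, Nat.mul_add_mod, Nat.mod_eq_of_lt hl]
  · rw [h1, mul_comm _ MZ, Nat.mul_add_mod, Nat.mod_eq_of_lt hZ]
  · unfold nd
    rw [mul_comm _ MC, Nat.mul_add_mod, Nat.mod_eq_of_lt hC]

/-! ### Bounds -/

theorem nrec_lt {B : ℕ} {f : ℕ → ℕ → ℕ} (hB : 0 < B) (hf : ∀ i w, f i w < B) (n : ℕ) :
    nrec 0 f n < B := by
  cases n with
  | zero => exact hB
  | succ n => exact hf _ _

theorem tabL_lt {q n : ℕ} {d : ℕ → ℕ} (h : ∀ i < n, d i < 2 ^ q) :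
    tab (2 ^ q) n d < 2 ^ (n * q) := by
  rw [← pow_L]
  exact tab_lt h

section

variable {q k r b M : ℕ} {lt : ℕ → ℕ} {bt : ℕ → ℕ → ℕ} {ps : ℕ → ℕ}

theorem classZ_lt (hps : ∀ x, ps x < 2 ^ q) (φ Z S Pv : ℕ) :
    classZ q k r b M lt bt ps φ Z S Pv < 2 ^ ((2 * k * b) ^ (2 * k) * q) := by
  unfold classZ
  refine nrec_lt (by positivity) (fun _ _ => ?_) _
  unfold stepZ
  exact tabL_lt fun _ _ => ifz_lt (ifz_lt (hps _) (dig_lt (by positivity) _ _)) (by positivity)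

theorem prodZ_lt (φ Z C X : ℕ) :
    prodZ q k r b M lt bt φ Z C X < 2 ^ ((2 * k * b) ^ (2 * k) * q) := by
  unfold prodZ
  exact tabL_lt fun _ _ => ifz_lt (orB_lt _ _ _ _) (by positivity)

theorem sumZ_lt (A B : ℕ) : sumZ q k b A B < 2 ^ ((2 * k * b) ^ (2 * k) * q) := by
  unfold sumZ
  exact tabL_lt fun _ _ => lor_lt _ _ _

theorem FZ_lt (hps : ∀ x, ps x < 2 ^ q) (φ l Z C X : ℕ) :
    FZ q k r b M lt bt ps φ l Z C X < 2 ^ ((2 * k * b) ^ (2 * k) * q) := by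
  unfold FZ
  exact ifz_lt (ifz_lt (by positivity) (classZ_lt hps _ _ _ _))
    (ifz_lt (prodZ_lt _ _ _ _) (sumZ_lt _ _))

theorem lor_zero (q : ℕ) : lor q 0 0 = 0 := by
  unfold lor tab
  refine sum_eq_zero fun t _ => ?_
  beta_reduce
  have h : dig 2 0 t = 0 := by
    unfold dig
    rw [Nat.zero_div, Nat.zero_mod]
  rw [h]
  unfold lt01
  rw [if_neg (by omega), zero_mul]

theorem sumZ_ST {W : ℕ → ℕ} (φ Z : ℕ) {lo hi lo' hi' lo'' hi'' : ℕ}
    (h : ∀ j, (lo ≤ j ∧ j < hi) ↔ (lo' ≤ j ∧ j < hi') ∨ (lo'' ≤ j ∧ j < hi'')) :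
    sumZ q k b (ST q k r b M lt bt W φ Z lo' hi') (ST q k r b M lt bt W φ Z lo'' hi'') =
      ST q k r b M lt bt W φ Z lo hi := by
  unfold sumZ
  conv_rhs => unfold Pool.Agent.Helper31.RG.ST
  refine tab_congr fun x hx => ?_
  rw [dig_ST φ Z lo' hi' hx, dig_ST φ Z lo'' hi'' hx, ifz_lt01]
  by_cases h1 : φ < pot k b (M * b) (lft k b M Z (2 * k) x)
  · rw [if_pos h1, if_pos h1, if_pos h1, lor_zero]
  · rw [if_neg h1, if_neg h1, if_neg h1, orB_split _ h]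

theorem ZT_zero {W : ℕ → ℕ} (hk : 0 < k) (Z : ℕ) : ZT q k b M W 0 Z = 0 := by
  unfold ZT tab
  refine sum_eq_zero fun x _ => ?_
  beta_reduce
  have h : 0 < pot k b (M * b) (lft k b M Z (2 * k) x) := by
    unfold pot
    exact sum_pos (fun _ _ => wt_pos _ _) ⟨0, mem_range.2 hk⟩
  rw [ifz_lt01, if_pos h, zero_mul]

theorem subZ_lt (hM : 0 < M) (Z C i : ℕ) : subZ k r M Z C i < M ^ (2 * k) := by
  unfold subZ
  exact tab_lt fun _ _ => ifz_lt (dig_lt hM _ _) (dig_lt hM _ _)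

theorem D_gt (hk : 0 < k) : 1 < (2 * k + k * r) ^ (2 * k) := by
  refine Nat.one_lt_pow (by omega) ?_
  have : 0 ≤ k * r := Nat.zero_le _
  omega

end

section

variable {q k r b Λ : ℕ} {lt : ℕ → ℕ} {bt : ℕ → ℕ → ℕ} {ps : ℕ → ℕ}

/-- The node. -/
abbrev node (k r Λ φ l Z C : ℕ) : ℕ :=
  nd (HH k r Λ) ((2 ^ Λ) ^ (2 * k)) ((2 ^ Λ) ^ (k * r)) φ l Z C

theorem VZ_lt (hps : ∀ x, ps x < 2 ^ q) (h u : ℕ) :
    VZ q k r b Λ lt bt ps h u < 2 ^ ((2 * k * b) ^ (2 * k) * q) :=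
  gval_lt (fun _ _ => FZ_lt hps _ _ _ _ _) (fun _ => by positivity) _ _

theorem VZ_zero (u : ℕ) : VZ q k r b Λ lt bt ps 0 u = 0 := rfl

theorem VZ_succ (h φ : ℕ) {l Z C : ℕ} (hl : l < HH k r Λ) (hZ : Z < (2 ^ Λ) ^ (2 * k))
    (hC : C < (2 ^ Λ) ^ (k * r)) :
    VZ q k r b Λ lt bt ps (h + 1) (node k r Λ φ l Z C) =
      FZ q k r b (2 ^ Λ) lt bt ps φ l Z C
        (tab (2 ^ ((2 * k * b) ^ (2 * k) * q)) ((2 * k + k * r) ^ (2 * k)) fun i =>
          VZ q k r b Λ lt bt ps h (chZ k r (2 ^ Λ) (HH k r Λ) φ l Z C i)) := by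
  obtain ⟨e1, e2, e3, e4⟩ := nd_dec φ hl hZ hC
  have h1 : VZ q k r b Λ lt bt ps (h + 1) (node k r Λ φ l Z C) =
      FZ q k r b (2 ^ Λ) lt bt ps
        (node k r Λ φ l Z C / (2 ^ Λ) ^ (k * r) / (2 ^ Λ) ^ (2 * k) / HH k r Λ)
        (node k r Λ φ l Z C / (2 ^ Λ) ^ (k * r) / (2 ^ Λ) ^ (2 * k) % HH k r Λ)
        (node k r Λ φ l Z C / (2 ^ Λ) ^ (k * r) % (2 ^ Λ) ^ (2 * k))
        (node k r Λ φ l Z C % (2 ^ Λ) ^ (k * r))
        (tab (2 ^ ((2 * k * b) ^ (2 * k) * q)) ((2 * k + k * r) ^ (2 * k)) fun i =>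
          VZ q k r b Λ lt bt ps h (chZ k r (2 ^ Λ) (HH k r Λ)
            (node k r Λ φ l Z C / (2 ^ Λ) ^ (k * r) / (2 ^ Λ) ^ (2 * k) / HH k r Λ)
            (node k r Λ φ l Z C / (2 ^ Λ) ^ (k * r) / (2 ^ Λ) ^ (2 * k) % HH k r Λ)
            (node k r Λ φ l Z C / (2 ^ Λ) ^ (k * r) % (2 ^ Λ) ^ (2 * k))
            (node k r Λ φ l Z C % (2 ^ Λ) ^ (k * r)) i)) := rfl
  rw [h1, e1, e2, e3, e4]

theorem dig_child (hps : ∀ x, ps x < 2 ^ q) (hk : 0 < k) (h : ℕ) (c : ℕ → ℕ) {i : ℕ}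
    (hi : i < 2) :
    dig (2 ^ ((2 * k * b) ^ (2 * k) * q))
      (tab (2 ^ ((2 * k * b) ^ (2 * k) * q)) ((2 * k + k * r) ^ (2 * k)) fun i =>
          VZ q k r b Λ lt bt ps h (c i)) i = VZ q k r b Λ lt bt ps h (c i) :=
  dig_tab (fun _ _ => VZ_lt hps _ _) (lt_of_lt_of_le hi (D_gt (r := r) hk))

theorem main (loc : Pool.Agent.Helper31.RG.G_LOC) (prod : G_PROD) (hk : 0 < k) (hb : 0 < b)
    (hbt : ∀ x y, bt x y < 2 ^ q) (hps : ∀ x, ps x < 2 ^ q) : ∀ h : ℕ,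
    (∀ φ Z, Z < (2 ^ Λ) ^ (2 * k) → φ * HH k r Λ ≤ h →
      VZ q k r b Λ lt bt ps h (node k r Λ φ 0 Z 0) =
        ZT q k b (2 ^ Λ) (V q k r (2 ^ Λ * b) lt bt ps) φ Z) ∧
    (∀ φ l Z C, 0 < φ → Z < (2 ^ Λ) ^ (2 * k) → l ≤ Λ * (k * r) → C < 2 ^ (Λ * (k * r) - l) →
      (φ - 1) * HH k r Λ + l + 1 ≤ h →
      VZ q k r b Λ lt bt ps h (node k r Λ φ (l + 1) Z C) =
        ST q k r b (2 ^ Λ) lt bt (V q k r (2 ^ Λ * b) lt bt ps) φ Z (C * 2 ^ l)
          ((C + 1) * 2 ^ l)) := by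
  have hM : 0 < 2 ^ Λ := by positivity
  have hMC : (2 ^ Λ) ^ (k * r) = 2 ^ (Λ * (k * r)) := (pow_mul 2 Λ (k * r)).symm
  have hMC0 : 0 < (2 ^ Λ) ^ (k * r) := by positivity
  have hH : HH k r Λ = Λ * (k * r) + 2 := rfl
  intro h
  induction h with
  | zero =>
    refine ⟨fun φ Z hZ h1 => ?_, fun φ l Z C _ _ _ _ h1 => by omega⟩
    rcases Nat.eq_zero_or_pos φ with rfl | hφ
    · rw [VZ_zero, ZT_zero hk]
    · have : 0 < φ * HH k r Λ := Nat.mul_pos hφ (by rw [hH]; omega)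
      omega
  | succ h ih =>
    obtain ⟨iha, ihb⟩ := ih
    refine ⟨fun φ Z hZ h1 => ?_, fun φ l Z C hφ hZ hl hC h1 => ?_⟩
    · rw [VZ_succ h φ (by rw [hH]; omega) hZ hMC0]
      unfold FZ
      rw [Helper65.LinSpace.ifz_zero]
      rcases Nat.eq_zero_or_pos φ with rfl | hφ
      · rw [Helper65.LinSpace.ifz_zero, ZT_zero hk]
      · rw [ifz_pos (by omega), dig_child hps hk h _ (by norm_num),
          dig_child hps hk h _ (by norm_num)]
        have c0 : chZ k r (2 ^ Λ) (HH k r Λ) φ 0 Z 0 0 = node k r Λ φ (Λ * (k * r) + 1) Z 0 := rfl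
        have c1 : chZ k r (2 ^ Λ) (HH k r Λ) φ 0 Z 0 1 = node k r Λ (φ - 1) 0 Z 0 := rfl
        have h2 : φ * HH k r Λ = (φ - 1) * HH k r Λ + HH k r Λ := by
          obtain ⟨ψ, rfl⟩ : ∃ ψ, φ = ψ + 1 := ⟨φ - 1, by omega⟩
          rw [Nat.succ_mul, Nat.add_sub_cancel]
        rw [c0, c1, ihb φ (Λ * (k * r)) Z 0 hφ hZ le_rfl (by positivity)
            (by rw [hH] at h2 h1 ⊢; omega),
          iha (φ - 1) Z hZ (by rw [hH] at h2 h1 ⊢; omega), zero_mul, zero_add, one_mul, ← hMC]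
        exact loc q k r b (2 ^ Λ) lt bt ps φ Z hk hb hM hbt hps hφ
    · have hC' : C < (2 ^ Λ) ^ (k * r) := by
        rw [hMC]
        exact lt_of_lt_of_le hC (Nat.pow_le_pow_right (by norm_num) (Nat.sub_le _ _))
      rw [VZ_succ h φ (by rw [hH]; omega) hZ hC']
      unfold FZ
      rw [ifz_pos (Nat.succ_ne_zero l), Nat.add_sub_cancel]
      rcases Nat.eq_zero_or_pos l with rfl | h2
      · have c0 : ∀ i, chZ k r (2 ^ Λ) (HH k r Λ) φ (0 + 1) Z C i =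
            node k r Λ (φ - 1) 0 (subZ k r (2 ^ Λ) Z C i) 0 := fun i => rfl
        have h3 : ∀ i, VZ q k r b Λ lt bt ps h (chZ k r (2 ^ Λ) (HH k r Λ) φ (0 + 1) Z C i) =
            ZT q k b (2 ^ Λ) (V q k r (2 ^ Λ * b) lt bt ps) (φ - 1)
              (subZ k r (2 ^ Λ) Z C i) := by
          intro i
          rw [c0]
          exact iha _ _ (subZ_lt hM _ _ _) (by omega)
        simp only [h3]
        rw [Helper65.LinSpace.ifz_zero, prod q k r b (2 ^ Λ) lt bt (V q k r (2 ^ Λ * b) lt bt ps) φ Z C hk hb hM hbt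
          (V_lt hps) hφ, pow_zero, mul_one, mul_one]
      · obtain ⟨l, rfl⟩ : ∃ l', l = l' + 1 := ⟨l - 1, by omega⟩
        have hpow : 2 ^ (Λ * (k * r) - l) = 2 * 2 ^ (Λ * (k * r) - (l + 1)) := by
          rw [← pow_succ']
          congr 1
          omega
        have hM2 : 2 ^ (Λ * (k * r) - l) ≤ (2 ^ Λ) ^ (k * r) := by
          rw [hMC]
          exact Nat.pow_le_pow_right (by norm_num) (Nat.sub_le _ _)
        have c0 : ∀ i < 2, chZ k r (2 ^ Λ) (HH k r Λ) φ (l + 1 + 1) Z C i =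
            node k r Λ φ (l + 1) Z (2 * C + i) := by
          intro i hi
          unfold chZ
          rw [ifz_pos (Nat.succ_ne_zero _), Nat.add_sub_cancel, ifz_pos (Nat.succ_ne_zero _),
            Nat.mod_eq_of_lt (by omega)]
        rw [ifz_pos (Nat.succ_ne_zero l), dig_child hps hk h _ (by norm_num),
          dig_child hps hk h _ (by norm_num), c0 0 (by norm_num), c0 1 (by norm_num),
          ihb φ l Z (2 * C + 0) hφ hZ (by omega) (by omega) (by omega),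
          ihb φ l Z (2 * C + 1) hφ hZ (by omega) (by omega) (by omega)]
        refine sumZ_ST φ Z fun j => ?_
        have e1 : C * 2 ^ (l + 1) = (2 * C + 0) * 2 ^ l := by ring
        have e2 : (C + 1) * 2 ^ (l + 1) = (2 * C + 1 + 1) * 2 ^ l := by ring
        have e3 : (2 * C + 0 + 1) * 2 ^ l = (2 * C + 1) * 2 ^ l := by ring
        have e4 : (2 * C + 0) * 2 ^ l ≤ (2 * C + 1) * 2 ^ l := Nat.mul_le_mul_right _ (by omega)
        have e5 : (2 * C + 1) * 2 ^ l ≤ (2 * C + 1 + 1) * 2 ^ l := Nat.mul_le_mul_right _ (by omega)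
        rw [e1, e2, e3]
        generalize (2 * C + 0) * 2 ^ l = A at *
        generalize (2 * C + 1) * 2 ^ l = B at *
        generalize (2 * C + 1 + 1) * 2 ^ l = E at *
        omega

end

/-! ### The root -/

theorem dig_top {B x : ℕ} (hx : x < B) (j : ℕ) : dig B (x * B) j = if j = 1 then x else 0 := by
  have hB : 0 < B := by omega
  rcases j with _ | j
  · rw [dig_zero, Nat.mul_mod_left, if_neg (by norm_num)]
  · rw [dig_succ, Nat.mul_div_cancel _ hB]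
    rcases j with _ | j
    · rw [dig_zero, Nat.mod_eq_of_lt hx, if_pos rfl]
    · rw [dig_succ, Nat.div_eq_of_lt hx, if_neg (by omega)]
      unfold dig
      rw [Nat.zero_div, Nat.zero_mod]

theorem mul_lt_pow {B x k : ℕ} (hk : 0 < k) (hx : x < B) : x * B < B ^ (2 * k) := by
  have h1 : x * B < B * B := Nat.mul_lt_mul_of_pos_right hx (by omega)
  have h2 : B ^ 2 ≤ B ^ (2 * k) := Nat.pow_le_pow_right (by omega) (by omega)
  rw [sq] at h2
  omega

theorem lft_root {k b M m : ℕ} (hk : 0 < k) (hb : 0 < b) (hM : 0 < M) (hm : m / b < M) :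
    lft k b M (m / b * M) (2 * k) ((b + m % b) * (2 * k * b)) = m * (M * b) := by
  have hmb : m % b < b := Nat.mod_lt _ hb
  have h0 : 2 * b ≤ 2 * k * b := Nat.mul_le_mul_right b (by omega)
  have hx : b + m % b < 2 * k * b := by omega
  have hmM : m < M * b := by
    rw [Nat.div_lt_iff_lt_mul hb] at hm
    exact hm
  refine ext_dig (B := M * b) (n := 2 * k) (lft_lt hb hM _ _ _) (mul_lt_pow hk hmM) fun j hj => ?_
  rw [dig_lft hb hM _ hj, dig_top hx, dig_top hmM]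
  by_cases h1 : j = 1
  · rw [if_pos h1, if_pos h1]
    have h2 : (b + m % b) / b = 1 := by
      rw [Nat.add_div_left _ hb, Nat.div_eq_of_lt hmb]
    have h3 : (b + m % b) % b = m % b := by
      rw [Nat.add_mod_left, Nat.mod_mod]
    rw [h2, h3, dig_top hm, if_pos rfl]
    have h4 := Nat.div_add_mod m b
    rw [mul_comm] at h4
    exact h4
  · rw [if_neg h1, if_neg h1, Nat.zero_div, Nat.zero_mod, dig_top hm, if_neg (by norm_num),
      zero_mul]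

theorem pot_root {k b N m : ℕ} (hk : 0 < k) (hm : m < N) :
    pot k b N (m * N) ≤ (k + 1) * (m / b) + k := by
  unfold pot
  obtain ⟨k', rfl⟩ : ∃ k', k = k' + 1 := ⟨k - 1, by omega⟩
  rw [sum_range_succ']
  have h1 : ∀ l ∈ range k', wt (k' + 1) (dig N (m * N) (2 * (l + 1) + 1) / b -
      dig N (m * N) (2 * (l + 1)) / b) = 1 := by
    intro l _
    rw [dig_top hm, dig_top hm, if_neg (by omega), if_neg (by omega), Nat.sub_self]
    rfl
  rw [sum_congr rfl h1, sum_const, card_range, smul_eq_mul, mul_one, dig_top hm, dig_top hm,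
    if_pos (by norm_num), if_neg (by norm_num), Nat.zero_div, Nat.sub_zero]
  unfold wt
  have h2 : ifz (m / b) 1 0 ≤ 1 := by
    unfold ifz
    split_ifs <;> omega
  omega

/-- **Packet TREE.** -/
theorem thm (loc : Pool.Agent.Helper31.RG.G_LOC) (prod : G_PROD) :
    Pool.Agent.Helper31.RG.G_TREE := by
  intro q k r b Λ m lt bt ps hk hb hbt hps hm
  have hM : 0 < 2 ^ Λ := by positivity
  unfold Pool.Agent.Helper31.RG.eng
  have h1 := (main (Λ := Λ) (lt := lt) (r := r) loc prod hk hb hbt hps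
    (((k + 1) * (m / b) + k) * HH k r Λ)).1 ((k + 1) * (m / b) + k) (m / b * 2 ^ Λ)
    (mul_lt_pow hk hm) le_rfl
  have h2 : (b + m % b) * (2 * k * b) < (2 * k * b) ^ (2 * k) := by
    refine mul_lt_pow hk ?_
    have hmb : m % b < b := Nat.mod_lt _ hb
    have h0 : 2 * b ≤ 2 * k * b := Nat.mul_le_mul_right b (by omega)
    omega
  have hmM : m < 2 ^ Λ * b := by
    rw [Nat.div_lt_iff_lt_mul hb] at hm
    exact hm
  unfold node at h1
  rw [h1, dig_ZT (V_lt hps) _ _ h2, lft_root hk hb hM hm,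
    if_neg (not_lt.2 (pot_root hk hmM))]

end Pool.Agent.Helper90.RG.PkTREE
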